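import Mathlib

namespace Pool.Agent.Results.MP_74cbe5_co.No

open Finset SimpleGraph

/-- Path-pairable: even order, and every pairing of all vertices is joined by edge-disjoint paths. -/
def PathPairable {V : Type} [Fintype V] (G : SimpleGraph V) : Prop :=
  Even (Fintype.card V) ∧ ∀ (k : ℕ) (s t : Fin k → V), Function.Bijective (Sum.elim s t) →
    ∃ P : ∀ i, G.Walk (s i) (t i), (∀ i, (P i).IsPath) ∧
      ∀ i j, i ≠ j → ∀ e ∈ (P i).edges, e ∉ (P j).edges

def Gv {V : Type} (E : V → V → Prop) (O : V → V → V) (v : V) : SimpleGraph V :=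
  fromRel fun x y => E x y ∧ O x y = v

theorem pp {V : Type} [Fintype V] (E : V → V → Prop) (hE : ∀ x y, E x y → ¬ E y x)
    (he : Even (Fintype.card V)) (h : ∀ σ : V → V, (∀ v, σ (σ v) = v) → (∀ v, σ v ≠ v) →
      ∃ O : V → V → V, ∀ v, ∃ x, (Gv E O v).Reachable v x ∧ (Gv E O (σ v)).Reachable (σ v) x) :
    PathPairable (fromRel E) := by
  classical
  refine ⟨he, fun k s t hb => ?_⟩
  let e := Equiv.ofBijective _ hb
  obtain ⟨O, hO⟩ := h (fun v => e (e.symm v).swap) (by simp) (fun v h => by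
    have := e.symm_apply_apply _ ▸ congrArg e.symm h
    revert this
    cases e.symm v <;> simp)
  have own : ∀ u v, ∀ e ∈ (Gv E O u).edgeSet, e ∈ (Gv E O v).edgeSet → u = v := by
    rintro u v ⟨x, y⟩ ⟨-, h | h⟩ ⟨-, h' | h'⟩
    · exact h.2.symm.trans h'.2
    · exact absurd h'.1 (hE _ _ h.1)
    · exact absurd h'.1 (hE _ _ h.1)
    · exact h.2.symm.trans h'.2
  have key : ∀ i, ∃ p : (fromRel E).Walk (s i) (t i), p.IsPath ∧
      ∀ e ∈ p.edges, e ∈ (Gv E O (s i)).edgeSet ∨ e ∈ (Gv E O (t i)).edgeSet := by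
    intro i
    obtain ⟨x, h1, h2⟩ := hO (s i)
    rw [show e (e.symm (s i)).swap = t i by
      rw [show s i = e (.inl i) from rfl, e.symm_apply_apply]; rfl] at h2
    obtain ⟨p, hp⟩ := ((h1.mono (le_sup_left (b := Gv E O (t i)))).trans
      (h2.mono le_sup_right).symm).exists_isPath
    have hle : Gv E O (s i) ⊔ Gv E O (t i) ≤ fromRel E :=
      sup_le (fun _ _ h => ⟨h.1, h.2.imp And.left And.left⟩)
        (fun _ _ h => ⟨h.1, h.2.imp And.left And.left⟩)
    refine ⟨p.mapLe hle, hp.mapLe hle, fun e he => ?_⟩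
    rw [Walk.edges_mapLe_eq_edges] at he
    simpa [edgeSet_sup] using p.edges_subset_edgeSet he
  choose P h1 h2 using key
  refine ⟨P, h1, fun i j hij e a b => hij ?_⟩
  rcases h2 i e a with a | a <;> rcases h2 j e b with b | b
  · simpa using @hb.1 (.inl i) (.inl j) (own _ _ e a b)
  · simpa using @hb.1 (.inl i) (.inr j) (own _ _ e a b)
  · simpa using @hb.1 (.inr i) (.inl j) (own _ _ e a b)
  · simpa using @hb.1 (.inr i) (.inr j) (own _ _ e a b)

theorem greedy {V : Type} [DecidableEq V] (Γ : Finset V) (σ τ : V → V) (hσ : ∀ v, σ (σ v) = v)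
    (hτ : ∀ v, τ (τ v) = v) (h1 : ∀ v, σ v ≠ v) (h2 : ∀ v ∈ Γ, τ v ≠ v) :
    ∃ A ⊆ Γ, Γ.card ≤ 5 * A.card ∧
      ∀ w ∈ A, τ w ∉ A ∧ σ w ∉ A ∧ (τ (σ w) ∈ A → τ (σ w) = w) := by
  obtain ⟨A, hA, hm⟩ := exists_max_image (Γ.powerset.filter fun A =>
    ∀ w ∈ A, τ w ∉ A ∧ σ w ∉ A ∧ (τ (σ w) ∈ A → τ (σ w) = w)) card ⟨∅, by simp⟩
  obtain ⟨hA, hI⟩ := mem_filter.mp hA
  rw [mem_powerset] at hA
  refine ⟨A, hA, ?_, hI⟩
  have : Γ ⊆ A.biUnion fun a => {a, τ a, σ a, τ (σ a), σ (τ a)} := by
    intro x hx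
    by_contra hc
    simp only [mem_biUnion, mem_insert, mem_singleton, not_exists, not_and, not_or] at hc
    have hxA : x ∉ A := fun h => (hc x h).1 rfl
    have := hm (insert x A) (mem_filter.mpr ⟨mem_powerset.mpr (insert_subset hx hA), ?_⟩)
    · rw [card_insert_of_notMem hxA] at this
      omega
    intro w hw
    simp only [mem_insert, not_or] at hw ⊢
    rcases hw with rfl | hw
    · refine ⟨⟨h2 w hx, fun h => (hc _ h).2.1 (hτ w).symm⟩, ⟨h1 w, fun h => (hc _ h).2.2.1 (hσ w).symm⟩,
        fun h => h.elim id fun h => absurd (by rw [hτ, hσ]) (hc _ h).2.2.2.2⟩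
    · obtain ⟨a, b, c⟩ := hI w hw
      obtain ⟨-, d, e, f, -⟩ := hc w hw
      exact ⟨⟨Ne.symm d, a⟩, ⟨Ne.symm e, b⟩, fun h => h.elim (fun h => absurd h.symm f) c⟩
  refine (card_le_card this).trans (card_biUnion_le.trans ?_)
  rw [mul_comm]
  exact sum_le_card_nsmul _ _ _ fun a _ => card_le_five

abbrev T (D : ℕ) := {l : List Bool // l.length ≤ D}

noncomputable instance (D : ℕ) : Fintype (T D) := (List.finite_length_le Bool D).fintype

abbrev W (D a b : ℕ) := T D ⊕ Bool ⊕ Fin a ⊕ Fin b × Bool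

variable {D a b : ℕ}

def hub (c : Bool) : W D a b := .inr (.inl c)

def nx (l : T D) (c : Bool) : W D a b :=
  if h : l.1.length < D then .inl ⟨c :: l.1, h⟩ else hub c

def out : W D a b → Finset (W D a b)
  | .inl l => {nx l false, nx l true}
  | .inr (.inl _) => ∅
  | .inr (.inr (.inl _)) => {hub false}
  | .inr (.inr (.inr (j, false))) => {hub false, hub true, .inr (.inr (.inr (j, true)))}
  | .inr (.inr (.inr (_, true))) => {hub false, hub true}

def rk : W D a b → ℕ
  | .inl l => l.1.length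
  | .inr (.inl _) => D + 1
  | .inr (.inr (.inl _)) => D
  | .inr (.inr (.inr (_, c))) => D - 1 + c.toNat

theorem rk_lt (hD : 0 < D) (x y : W D a b) (h : y ∈ out x) : rk x < rk y ∧ rk y ≤ rk x + 2 := by
  rcases x with ⟨l, hl⟩ | c | i | ⟨j, _ | _⟩ <;> simp only [out, mem_insert, mem_singleton] at h
  · rcases h with rfl | rfl <;> unfold nx <;> split_ifs <;> simp_all [rk, hub] <;> omega
  · simp at h
  · subst h; simp [rk, hub]
  · rcases h with rfl | rfl | rfl <;> simp [rk, hub] <;> omega
  · rcases h with rfl | rfl <;> simp [rk, hub] <;> omega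

def own : List Bool → List Bool
  | [] => []
  | false :: l => l
  | true :: l => own l

theorem own_le : ∀ l : List Bool, (own l).length ≤ l.length
  | [] => le_rfl
  | false :: l => by simp [own]
  | true :: l => (own_le l).trans (by simp)

def ow (l : T D) : W D a b := .inl ⟨own l.1, (own_le _).trans l.2⟩

def tw : W D a b → W D a b
  | .inr (.inr (.inr (j, c))) => .inr (.inr (.inr (j, !c)))
  | x => x

def IsM (x : W D a b) : Prop := ∃ m, x = .inr (.inr (.inr m))

def O (A : Finset (W D a b)) (g : W D a b → W D a b) (x y : W D a b) : W D a b :=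
  match x with
  | .inl l => if y = nx l false then x else ow l
  | x => if y = tw x then (if x ∈ A then x else y) else
      if x ∈ A then g x else if tw x ∈ A ∧ y = hub true then tw x else x

variable (A : Finset (W D a b)) (g : W D a b → W D a b)

theorem step {E : W D a b → W D a b → Prop} {O} {x y v : W D a b} (hne : x ≠ y) (h : E x y)
    (h' : O x y = v) : (Gv E O v).Reachable x y := Adj.reachable ⟨hne, Or.inl ⟨h, h'⟩⟩

theorem tree (l : T D) (c : Bool) : (Gv (fun x y => y ∈ out x) (O A g) (O A g (.inl l) (nx l c))).Reachable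
    (.inl l) (hub c) ∨ (Gv (fun x y => y ∈ out x) (O A g) (O A g (.inl l) (nx l c))).Reachable
    (.inl l) (hub true) := by
  generalize hn : D - l.1.length = n
  induction n generalizing l c with
  | zero =>
    have : (nx l c : W D a b) = hub c := dif_neg (by omega)
    exact Or.inl (step (by simp [hub]) (by rw [← this]; cases c <;> simp [out]) (by rw [this]))
  | succ n ih =>
    have h : l.1.length < D := by omega
    have e : ∀ c, (nx l c : W D a b) = .inl ⟨c :: l.1, h⟩ := fun c => dif_pos h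
    have h1 := (ih ⟨c :: l.1, h⟩ true (by simp; omega)).elim id id
    have h2 : O A g (.inl ⟨c :: l.1, h⟩) (nx ⟨c :: l.1, h⟩ true) = O A g (.inl l) (nx l c) := by
      have : (nx ⟨c :: l.1, h⟩ true : W D a b) ≠ nx ⟨c :: l.1, h⟩ false := by
        unfold nx; split_ifs <;> simp [hub]
      cases c <;> simp [O, this, e, ow, own]
    rw [h2] at h1
    refine Or.inr ((step ?_ ?_ ?_).trans h1)
    · intro h
      simpa [rk] using congrArg rk h
    · rw [← e]; cases c <;> simp [out]
    · rw [e]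

theorem mh {x : W D a b} (hx : IsM x) (c : Bool) : x ≠ hub c ∧ hub c ∈ out x ∧ O A g x (hub c) =
    if x ∈ A then g x else if tw x ∈ A ∧ c = true then tw x else x := by
  obtain ⟨⟨j, d⟩, rfl⟩ := hx
  cases d <;> cases c <;> simp [hub, out, O, tw]

theorem tw_tw (x : W D a b) : tw (tw x) = x := by
  rcases x with _ | _ | _ | ⟨j, c⟩ <;> simp [tw]

theorem reach (hA : ∀ w ∈ A, IsM w) (hg : ∀ v, v = hub true ∨ (∃ l, v = .inl l) → ∃ w ∈ A, g w = v)
    (v : W D a b) (hv : v ∉ A) : (Gv (fun x y => y ∈ out x) (O A g) v).Reachable v (hub false) := by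
  have key : v = hub true ∨ (∃ l, v = .inl l) →
      (Gv (fun x y => y ∈ out x) (O A g) v).Reachable (hub true) (hub false) := by
    intro h
    obtain ⟨w, h1, h2⟩ := hg v h
    have := fun c => step (v := v) (O := O A g) (E := fun x y => y ∈ out x) (mh A g (hA w h1) c).1
      (mh A g (hA w h1) c).2.1 (by rw [(mh A g (hA w h1) c).2.2, if_pos h1, h2])
    exact (this true).symm.trans (this false)
  rcases v with l | (_ | _) | i | m
  · have := tree A g l false
    rw [show O A g (.inl l) (nx l false) = .inl l by simp [O]] at this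
    exact this.elim id fun h => h.trans (key (Or.inr ⟨l, rfl⟩))
  · rfl
  · exact key (Or.inl rfl)
  · exact step (by simp [hub]) (by simp [out]) (by simp [O, tw, hub, hv])
  · have := mh A g ⟨m, rfl⟩ false
    exact step this.1 this.2.1 (by simp [this.2.2, hv])

theorem reach2 (σ : W D a b → W D a b) (w : W D a b) (hw : w ∈ A) (h1 : IsM w) (h2 : IsM (σ w))
    (h3 : tw w ∉ A ∧ σ w ∉ A ∧ (tw (σ w) ∈ A → tw (σ w) = w)) :
    ∃ x, (Gv (fun x y => y ∈ out x) (O A g) w).Reachable w x ∧
      (Gv (fun x y => y ∈ out x) (O A g) (σ w)).Reachable (σ w) x := by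
  have a1 : (Gv (fun x y => y ∈ out x) (O A g) w).Reachable w (tw w) := by
    obtain ⟨⟨j, _ | _⟩, rfl⟩ := h1
    · exact step (by simp [tw]) (by simp [out, tw]) (by simp [O, hw])
    · have := h3.1
      simp only [tw, Bool.not_true] at this
      exact (step (by simp [tw]) (by simp [out, tw]) (by simp [O, tw, this])).symm
  by_cases e : σ w = tw w
  · exact ⟨tw w, a1, e ▸ .refl _⟩
  have a2 := mh A g (x := tw w) (by obtain ⟨⟨j, c⟩, rfl⟩ := h1; exact ⟨_, rfl⟩) true
  have a3 := mh A g h2 true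
  have a4 : tw (σ w) ∉ A := fun h => e (by rw [← tw_tw (σ w), h3.2.2 h])
  exact ⟨hub true, a1.trans (step a2.1 a2.2.1 (by simp [a2.2.2, h3.1, tw_tw, hw])),
    step a3.1 a3.2.1 (by simp [a3.2.2, h3.2.1, a4])⟩

theorem main (hD : 0 < D) (he : Even (Fintype.card (W D a b)))
    (hb : 6 * Fintype.card (T D) + 7 + a ≤ 2 * b) :
    PathPairable (fromRel fun x y : W D a b => y ∈ out x) := by
  classical
  refine pp _ (fun x y h h' => by have := rk_lt hD _ _ h; have := rk_lt hD _ _ h'; omega) he
    fun σ h1 h2 => ?_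
  obtain ⟨A, hA, hc, hI⟩ := greedy (univ.filter fun x => IsM x ∧ IsM (σ x)) σ tw h1 tw_tw h2 (by
    intro v hv
    obtain ⟨⟨⟨j, c⟩, rfl⟩, -⟩ := (mem_filter.mp hv).2
    simp [tw])
  have hM : (univ.filter fun x : W D a b => IsM x).card = 2 * b := by
    rw [show (univ.filter fun x : W D a b => IsM x) =
      univ.image fun m => Sum.inr (.inr (.inr m)) by ext; simp [IsM, eq_comm],
      card_image_of_injective _ (by intro _ _ h; simpa using h)]
    simp [mul_comm]
  have a1 := card_filter_add_card_filter_not (s := univ) fun x : W D a b => IsM x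
  have a2 := card_filter_add_card_filter_not (s := univ.filter fun x : W D a b => IsM x)
    fun x => IsM (σ x)
  have a3 : ((univ.filter fun x : W D a b => IsM x).filter fun x => ¬ IsM (σ x)).card ≤
      (univ.filter fun x : W D a b => ¬ IsM x).card :=
    card_le_card_of_injOn σ (fun x hx => by simpa using (mem_filter.mp hx).2)
      fun x _ y _ h => by rw [← h1 x, h, h1]
  rw [filter_filter] at a2
  simp only [card_univ, Fintype.card_sum, Fintype.card_bool, Fintype.card_fin,
    Fintype.card_prod] at a1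
  obtain ⟨f⟩ : Nonempty (Option (T D) ↪ A) := Function.Embedding.nonempty_of_card_le (by
    simp only [Fintype.card_option, Fintype.card_coe]
    omega)
  have inj : Function.Injective fun t => (f t : W D a b) := Subtype.val_injective.comp f.injective
  let g := Function.extend (fun t => (f t : W D a b)) (fun t => t.elim (hub true) .inl) id
  have hg : ∀ v, v = hub true ∨ (∃ l, v = .inl l) → ∃ w ∈ A, g w = v := by
    rintro v (rfl | ⟨l, rfl⟩)
    · exact ⟨_, (f none).2, inj.extend_apply _ _ _⟩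
    · exact ⟨_, (f (some l)).2, inj.extend_apply _ _ _⟩
  have hA' := fun w (h : w ∈ A) => (mem_filter.mp (hA h)).2
  refine ⟨O A g, fun v => ?_⟩
  by_cases c1 : v ∈ A
  · exact reach2 A g σ v c1 (hA' v c1).1 (hA' v c1).2 (hI v c1)
  by_cases c2 : σ v ∈ A
  · obtain ⟨x, a, b⟩ := reach2 A g σ _ c2 (hA' _ c2).1 (hA' _ c2).2 (hI _ c2)
    rw [h1] at b
    exact ⟨x, b, a⟩
  exact ⟨_, reach A g (fun w h => (hA' w h).1) hg v c1, reach A g (fun w h => (hA' w h).1) hg _ c2⟩

theorem edges : (fromRel fun x y : W D a b => y ∈ out x).edgeSet.ncard ≤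
    2 * Fintype.card (T D) + a + 5 * b := by
  classical
  have h1 : (fromRel fun x y : W D a b => y ∈ out x).edgeSet ⊆
      (univ.biUnion fun x : W D a b => (out x).image fun y => s(x, y) : Finset _) := by
    rintro ⟨x, y⟩ ⟨-, h | h⟩
    · exact mem_biUnion.mpr ⟨x, mem_univ _, mem_image.mpr ⟨y, h, rfl⟩⟩
    · exact mem_biUnion.mpr ⟨y, mem_univ _, mem_image.mpr ⟨x, h, Sym2.eq_swap⟩⟩
  refine (Set.ncard_le_ncard h1).trans ?_
  rw [Set.ncard_coe_finset]
  refine card_biUnion_le.trans ((sum_le_sum fun x _ => card_image_le).trans ?_)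
  simp only [Fintype.sum_sum_type, Fintype.sum_prod_type, Fintype.sum_bool, out]
  have b1 := sum_le_card_nsmul univ (fun l : T D => ({nx l false, nx l true} :
    Finset (W D a b)).card) 2 fun _ _ => card_le_two
  have b2 := sum_le_card_nsmul univ (fun j : Fin b => ({hub false, hub true} :
    Finset (W D a b)).card + ({hub false, hub true, .inr (.inr (.inr (j, true)))} :
    Finset (W D a b)).card) 5 fun _ _ => add_le_add card_le_two card_le_three
  simp only [card_univ, Fintype.card_fin, smul_eq_mul, card_empty, card_singleton, sum_const] at *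
  omega

theorem conn (hb : 0 < b) (v : W D a b) :
    (fromRel fun x y : W D a b => y ∈ out x).Reachable v (hub false) := by
  have hm : ∀ m c, (fromRel fun x y : W D a b => y ∈ out x).Reachable (.inr (.inr (.inr m))) (hub c) :=
    fun m c => Adj.reachable ⟨(mh ∅ id ⟨m, rfl⟩ c).1, Or.inl (mh ∅ id ⟨m, rfl⟩ c).2.1⟩
  have key := (hm (⟨0, hb⟩, true) true).symm.trans (hm _ false)
  rcases v with l | (_ | _) | i | m
  · have hle : ∀ v, Gv (fun x y => y ∈ out x) (O ∅ id) v ≤ fromRel fun x y : W D a b => y ∈ out x :=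
      fun _ _ _ h => ⟨h.1, h.2.imp And.left And.left⟩
    exact (tree ∅ id l false).elim (fun h => h.mono (hle _)) fun h => (h.mono (hle _)).trans key
  · rfl
  · exact key
  · exact Adj.reachable ⟨by simp [hub], Or.inl (by simp [out])⟩
  · exact hm m false

theorem far (hD : 0 < D) {u v : W D a b} (p : (fromRel fun x y : W D a b => y ∈ out x).Walk u v) :
    rk v ≤ rk u + 2 * p.length := by
  induction p with
  | nil => simp
  | cons h p ih =>
    rw [Walk.length_cons]
    rcases h.2 with h | h <;> have := rk_lt hD _ _ h <;> omega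

theorem result : ∀ D : ℕ, ∃ (V : Type) (_ : Fintype V) (G : SimpleGraph V),
    PathPairable G ∧ G.Connected ∧ (G.edgeSet.ncard : ℝ) ≤ (2 - 1 / 8) * Fintype.card V ∧
      D ≤ G.diam := by
  intro D
  obtain ⟨K, hK⟩ : ∃ K, K = Fintype.card (T (2 * D + 1)) := ⟨_, rfl⟩
  have hc : Fintype.card (W (2 * D + 1) (19 * K + 6) (13 * K + 7)) = 46 * K + 22 := by
    simp only [Fintype.card_sum, Fintype.card_bool, Fintype.card_fin, Fintype.card_prod, ← hK]
    ring
  have hC : (fromRel fun x y : W (2 * D + 1) (19 * K + 6) (13 * K + 7) => y ∈ out x).Connected :=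
    @Connected.mk _ _ (fun u v => (conn (by omega) u).trans (conn (by omega) v).symm) ⟨hub true⟩
  refine ⟨_, inferInstance, _, main (by omega) (hc ▸ ⟨23 * K + 11, by ring⟩) (by omega), hC, ?_, ?_⟩
  · have := edges (D := 2 * D + 1) (a := 19 * K + 6) (b := 13 * K + 7)
    rw [← hK] at this
    have h2 : (_ : ℝ) ≤ _ := Nat.cast_le.mpr this
    rw [hc]
    push_cast at h2 ⊢
    have : (0 : ℝ) ≤ K := by positivity
    linarith
  · have : Nonempty (W (2 * D + 1) (19 * K + 6) (13 * K + 7)) := ⟨hub true⟩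
    obtain ⟨p, hp⟩ := hC.exists_walk_length_eq_dist (.inl ⟨[], by simp⟩) (hub true)
    have h1 := far (by omega) p
    have h2 := dist_le_diam (connected_iff_ediam_ne_top.mp hC) (u := .inl ⟨[], by simp⟩)
      (v := hub true)
    simp only [rk, hub, List.length_nil] at h1 hp h2
    omega

end Pool.Agent.Results.MP_74cbe5_co.No
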